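import Mathlib
import Pool.Agent.N870.EC.Stm

/-!
# Project EC, leaf PW: `#Sel₂ ≤ 4 * 2 ^ rank * #Ш[2]` for `y² = x (x - A) (x - B)`
-/

set_option autoImplicit false
set_option linter.all false

namespace Pool.Agent.N861.EC

open WeierstrassCurve

open Pool.Agent.TH841.SH.D (Sha rk ShaTor)

open Pool.Agent.TH841.PT (EQ isR_EQ bd_EQ)

open Pool.Agent.Y667.SX (Sel2H)

open Pool.Agent.Y833.SX (PC)

open Pool.Agent.R431.NO (fg_EQ)

open Pool.Agent.R421.EK (Hdiv Four sel2_bd)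

open Pool.Agent.N870.EC (S_SELGE S_PW)

open Pool.Agent.TH841.SH (IsR)

open Pool.Agent.W307.SE (SN)

/-- **EC/PW.** -/
theorem t_PW (h : S_SELGE) : S_PW := by
  intro A B hA hB hAB
  have hR := isR_EQ A B
  have q1 : (0 : ℚ) ≠ A := by exact_mod_cast hA.symm
  have q2 : (0 : ℚ) ≠ B := by exact_mod_cast hB.symm
  have q3 : (A : ℚ) ≠ B := by exact_mod_cast hAB
  have hdv : Hdiv (EQ A B) := fun P => Pool.Agent.Y833.SX.div2 hR q1 q2 q3 P
  have h4 : Four (EQ A B) := Pool.Agent.Y833.SX.card4 hR q1 q2 q3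
  have hfg := fg_EQ hAB hA hB
  have hfin : Finite (ShaTor (EQ A B) (2 ^ 1)) := (bd_EQ hA hB hAB).fin 1
  have k1 : {x : Sha (EQ A B) | (2 ^ 1) • x = 0}.Finite := hfin
  obtain ⟨b1, b2, b3⟩ := sel2_bd hdv hfg h4 k1
  have hs := h (EQ A B) 0 A B hA.symm hB.symm hAB hR b1
  rw [sub_zero, sub_zero] at hs
  refine hs.trans ?_
  have e : {x : Sha (EQ A B) | (2 ^ 1) • x = 0}.ncard = Nat.card (ShaTor (EQ A B) 2) :=
    (Nat.card_coe_set_eq _).symm
  rw [e] at b3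
  have b3' : (Nat.card (Sel2H (EQ A B)) : ℝ) ≤
      (Nat.card (ShaTor (EQ A B) 2) : ℝ) * 2 ^ (rk (EQ A B) + 2) := by exact_mod_cast b3
  refine b3'.trans (le_of_eq ?_)
  rw [pow_add]
  ring

end Pool.Agent.N861.EC
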